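import Mathlib
import Pool.Agent.H46.Switch

set_option autoImplicit false

namespace Pool.Agent.Results.MP_e73337_co.ManyCopies

/-- The switch of `G` at the vertex `i` (as in the frozen statement). -/
def sw {p : ℕ} (G : SimpleGraph (Fin p)) (i : Fin p) : SimpleGraph (Fin p) :=
  symmDiff G (SimpleGraph.fromRel (fun u (_ : Fin p) => u = i))

/-- `G` and `H` have the same switching deck. -/
def SameDeck {p : ℕ} (G H : SimpleGraph (Fin p)) : Prop :=
  ∃ σ : Equiv.Perm (Fin p), ∀ i : Fin p, Nonempty (sw G i ≃g sw H (σ i))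

/-- The labelled graph obtained from `G` by switching with respect to the vertex set
`{v | X v = true}`: exactly the pairs with one vertex in the set are complemented. -/
def switchSet {p : ℕ} (G : SimpleGraph (Fin p)) (X : Fin p → Bool) : SimpleGraph (Fin p) where
  Adj u v := u ≠ v ∧ (G.Adj u v ↔ X u = X v)
  symm := ⟨by
    intro u v h
    refine ⟨h.1.symm, ?_⟩
    rw [G.adj_comm v u, h.2]
    exact eq_comm⟩
  loopless := ⟨fun _ h => h.1 rfl⟩

/-- The labelled graphs in the switching class of `G` which are isomorphic to `G`. -/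
def copies {p : ℕ} (G : SimpleGraph (Fin p)) : Set (SimpleGraph (Fin p)) :=
  {K | Nonempty (K ≃g G) ∧ ∃ X : Fin p → Bool, K = switchSet G X}

/-- Let `p = 4 k`. If the switching class of a graph `G` on `p` vertices contains fewer than
`2 ^ (p / 2 - 2) = 2 ^ (2 k - 2)` labelled graphs isomorphic to `G`, then `G` is
switching-reconstructible. -/
theorem result (k : ℕ) (hk : 1 ≤ k) (G : SimpleGraph (Fin (4 * k)))
    (hfew : (copies G).ncard < 2 ^ (2 * k - 2)) :
    ∀ H : SimpleGraph (Fin (4 * k)), SameDeck G H → Nonempty (G ≃g H) := by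
  intro H hd
  by_contra hno
  have h1 := Pool.Agent.H46.main_switch (p := 4 * k) (i := 2 * k) (by ring) (by omega) G H hd hno
  have h2 := Pool.Agent.H46.labelled_bound G
  have h3 : (2 : ℕ) ^ (2 * k - 1) = 2 * 2 ^ (2 * k - 2) := by
    rw [← pow_succ']
    congr 1
    omega
  have h4 : (copies G).ncard = {K : SimpleGraph (Fin (4 * k)) | Nonempty (K ≃g G) ∧
      ∃ X : Fin (4 * k) → Bool, K = Pool.Agent.H46.swS G X}.ncard := rfl
  omega

end Pool.Agent.Results.MP_e73337_co.ManyCopies
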